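import Pool.Agent.U898.CM.Apx
import Pool.Agent.U212.SM.Zero

/-!
# Collapsing maps between closed connected manifolds, local diffeomorphisms off the exceptional fibres
-/

set_option autoImplicit false
set_option linter.unusedSectionVars false

open Set Filter Topology Metric Function MeasureTheory
open scoped Manifold ContDiff

noncomputable section

namespace Pool.Agent.U898.SB.Kirby

open Pool.Agent.Y522 Pool.Agent.N550.KH Pool.Agent.U212.SM Pool.Agent.U898.CM.Mods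

section move

variable {n : ℕ} {N : Type} [TopologicalSpace N] [T2Space N] [ChartedSpace (E n) N]
  [IsManifold (𝓡 n) ∞ N]

theorem df_comp {K L : N → N} (hK : IsDf n K) (hL : IsDf n L) : IsDf n (fun x => K (L x)) :=
  ⟨hK.1.comp hL.1, fun x => LD.comp_fun (hK.2 _) (hL.2 x)⟩

theorem df_inv {K : N → N} (hK : IsDf n K) : ∃ L : N → N, IsDf n L ∧ ∀ x, L (K x) = x := by
  obtain ⟨L, h1, h2, h3⟩ := One.IsDf_inv hK
  refine ⟨L, ⟨⟨fun a b hab => ?_, fun x => ⟨K x, h1 x⟩⟩, h3⟩, h1⟩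
  have := congrArg K hab
  rwa [h2, h2] at this

/-- small moves -/
theorem local_move (x : N) : ∃ U : Set N, IsOpen U ∧ x ∈ U ∧
    ∀ y ∈ U, ∃ K : N → N, IsDf n K ∧ K x = y := by
  obtain ⟨c, hi, hl, h0⟩ := Pool.Agent.N550.TS.Flm.exists_cell0 (n := n) x
  let χ : ContDiffBump (0 : E n) := ⟨1, 2, one_pos, one_lt_two⟩
  have hχ : ContDiff ℝ ∞ (χ : E n → ℝ) := χ.contDiff
  obtain ⟨C, hC⟩ : ∃ C : ℝ, ∀ z, ‖fderiv ℝ (χ : E n → ℝ) z‖ ≤ C := by
    have h1 : HasCompactSupport (fderiv ℝ (χ : E n → ℝ)) := χ.hasCompactSupport.fderiv ℝ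
    have h2 : Continuous (fderiv ℝ (χ : E n → ℝ)) := hχ.continuous_fderiv (by simp)
    exact h2.bounded_above_of_compact_support h1
  have hC0 : 0 ≤ C := (norm_nonneg _).trans (hC 0)
  have hδ : 0 < 1 / (2 * (C + 1)) := by positivity
  refine ⟨c '' ball 0 (1 / (2 * (C + 1))), (Asm.isOpenEmb hi hl).isOpenMap _ isOpen_ball,
    ⟨0, mem_ball_self hδ, h0⟩, ?_⟩
  rintro _ ⟨w, hw, rfl⟩
  rw [mem_ball_zero_iff] at hw
  have hIs : IsDf n (fun z => z + χ z • w) := by
    refine Shift.s_pert n χ w (1 / 2) hχ (by norm_num) fun z => ?_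
    calc ‖fderiv ℝ (χ : E n → ℝ) z‖ * ‖w‖ ≤ (C + 1) * (1 / (2 * (C + 1))) := by
          refine mul_le_mul ((hC z).trans (by linarith)) hw.le (norm_nonneg _) (by linarith)
      _ = 1 / 2 := by field_simp
  obtain ⟨K, hK, hKc, -⟩ := Supp.main n N c hi hl _ hIs ⟨2, fun z hz => by
    have h1 : χ z = 0 := χ.zero_of_le_dist (by rw [dist_zero_right]; exact hz)
    rw [h1, zero_smul, add_zero]⟩
  refine ⟨K, hK, ?_⟩
  have h2 : χ (0 : E n) = 1 := χ.one_of_mem_closedBall (mem_closedBall_self zero_le_one)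
  rw [← h0, hKc, h2, one_smul, zero_add]

/-- the diffeomorphisms act transitively on a connected manifold -/
theorem move [PreconnectedSpace N] (x y : N) : ∃ K : N → N, IsDf n K ∧ K x = y := by
  have hid : IsDf n (fun z : N => z) := ⟨bijective_id, fun z => LD.id z⟩
  let O : Set N := {y | ∃ K : N → N, IsDf n K ∧ K x = y}
  have hO : IsOpen O := by
    rw [isOpen_iff_mem_nhds]
    rintro y ⟨K, hK, hKy⟩
    obtain ⟨U, hU, hyU, h⟩ := local_move (n := n) y
    filter_upwards [hU.mem_nhds hyU] with z hz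
    obtain ⟨L, hL, hLz⟩ := h z hz
    exact ⟨fun a => L (K a), df_comp hL hK, by beta_reduce; rw [hKy, hLz]⟩
  have hOc : IsOpen Oᶜ := by
    rw [isOpen_iff_mem_nhds]
    intro y hy
    obtain ⟨U, hU, hyU, h⟩ := local_move (n := n) y
    filter_upwards [hU.mem_nhds hyU] with z hz hzO
    obtain ⟨L, hL, hLz⟩ := h z hz
    obtain ⟨K, hK, hKz⟩ := hzO
    obtain ⟨L', hL', hL'L⟩ := df_inv hL
    exact hy ⟨fun a => L' (K a), df_comp hL' hK, by beta_reduce; rw [hKz, ← hLz, hL'L]⟩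
  have h1 : O = univ := IsClopen.eq_univ ⟨⟨hOc⟩, hO⟩ ⟨x, _, hid, rfl⟩
  have h2 : y ∈ O := h1 ▸ mem_univ y
  exact h2

end move

/-- **The theorem.** -/
theorem offPoint {m : ℕ} {M N : Type} [TopologicalSpace M] [CompactSpace M] [T2Space M]
    [ChartedSpace (E (m + 1)) M] [IsManifold (𝓡 (m + 1)) ∞ M] [TopologicalSpace N]
    [CompactSpace N] [T2Space N] [ConnectedSpace N] [ChartedSpace (E (m + 1)) N]
    [IsManifold (𝓡 (m + 1)) ∞ N] {f : M → N} {B : Set N} (hf : Cls m f B)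
    (hld : ∀ x, f x ∉ B → LD (m + 1) f x) (hB : IsClosed B) (hBn : NullH (m + 1) B) :
    OffPoint (m + 1) M N := by
  obtain ⟨C, hC, hBC⟩ := common_null (n := m + 1) B hB.isCompact hBn
  obtain ⟨c', h1, h2, h3⟩ := hf.cell hB hBn C hC.1 hC.2
  have hX : ∀ x, x ∈ (range c')ᶜ → f x ∉ B := by
    intro x hx hxB
    rw [h3] at hx
    exact hx (hBC hxB)
  refine Asm.main End.main (m + 1) M N (range c')ᶜ (range C)ᶜ c' C f (Nat.succ_pos m)
    (cell_ne_univ (Nat.succ_pos m) ⟨h1, h2⟩) h1 h2 (compl_compl _).symm hC.1 hC.2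
    (compl_compl _).symm (fun x hx => hld x (hX x hx)) ?_ ?_
  · intro x hx y hy hxy
    exact (hf.good y (hX y hy)).2 x hxy
  · rw [h3, ← preimage_compl]
    exact image_preimage_eq _ hf.surj

/-- the exceptional point can be mapped to a given point -/
theorem OffPoint.at {n : ℕ} {M N : Type} [TopologicalSpace M] [CompactSpace M]
    [ChartedSpace (E n) M] [TopologicalSpace N] [T2Space N] [PreconnectedSpace N]
    [ChartedSpace (E n) N] [IsManifold (𝓡 n) ∞ N] (h : OffPoint n M N) (y : N) :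
    ∃ (G : M ≃ₜ N) (x₀ : M), G x₀ = y ∧ ∀ x, x ≠ x₀ → LD n G x := by
  obtain ⟨G, x₀, hG⟩ := h
  obtain ⟨K, hK, hKy⟩ := move (n := n) (G x₀) y
  have hc : Continuous fun x => K (G x) :=
    (continuous_iff_continuousAt.2 fun z => (hK.2 z).continuousAt).comp G.continuous
  refine ⟨Continuous.homeoOfEquivCompactToT2
    (f := Equiv.ofBijective (fun x => K (G x)) (hK.1.comp G.bijective)) hc, x₀, hKy, fun x hx => ?_⟩
  have h1 : LD n (fun x => K (G x)) x := LD.comp_fun (hK.2 _) (hG x hx)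
  exact h1

/-- coordinates are pulled back by local diffeomorphisms -/
theorem pull {n : ℕ} {M N : Type} [TopologicalSpace M] [ChartedSpace (E n) M] [TopologicalSpace N]
    [ChartedSpace (E n) N] {G : M → N} {x : M} (hG : LD n G x) {c : E n → N} (hc : LD n c 0)
    (hcx : c 0 = G x) : ∃ c' : E n → M, LD n c' 0 ∧ c' 0 = x ∧ ∀ᶠ z in 𝓝 0, G (c' z) = c z := by
  obtain ⟨p, hp1, hp2, hp3, hp4⟩ := hG.exists_inverse
  refine ⟨fun z => p (c z), LD.comp_fun (by rw [hcx]; exact hp1) hc, ?_, ?_⟩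
  · show p (c 0) = x
    rw [hcx, hp2]
  · have h1 : Tendsto c (𝓝 0) (𝓝 (G x)) := by
      rw [← hcx]
      exact hc.continuousAt
    exact h1.eventually hp4

end Pool.Agent.U898.SB.Kirby
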