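import Pool.Agent.U898.CM.Apx
import Pool.Agent.N550.RF.All

/-!
# Collapsing maps onto the total spaces of 3-sphere bundles over the circle
-/

set_option autoImplicit false

open Set Filter Topology Metric Function MeasureTheory
open scoped Manifold ContDiff

noncomputable section

namespace Pool.Agent.U898.SB

open Pool.Agent.N550

open Pool.Agent.Y522 Pool.Agent.N550.KH Pool.Agent.N550.SH Pool.Agent.N550.CQ Pool.Agent.N550.RF
open Pool.Agent.U898.CM.Mods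

section rank

variable {M N : Type} [TopologicalSpace M] [ChartedSpace (E 4) M]
  [TopologicalSpace N] [ChartedSpace (E 4) N]

theorem rk_congr {f g : M → N} {x : M} (h : g =ᶠ[𝓝 x] f) : rk 4 g x = rk 4 f x := by
  unfold rk
  rw [h.mfderiv_eq]
  rfl

theorem bad_congr {f g : M → N} {x : M} (h : g =ᶠ[𝓝 x] f) (hx : x ∈ KH.Bad 4 g) :
    x ∈ KH.Bad 4 f := by
  intro hf
  exact hx (KH.One.sm_congr hf h)

end rank

/-- the image of a product of an open interval with the sphere is open -/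
theorem open_image {N : Type} [TopologicalSpace N] [ChartedSpace (E 4) N] {ρ : Equiv.Perm (Sp 3)}
    {P : ℝ × Sp 3 → N} (hP : IsTorus ρ P) {U : Set (ℝ × Sp 3)} (hU : IsOpen U) :
    IsOpen (P '' U) := by
  have h1 : IsLocalDiffeomorph (𝓘(ℝ, ℝ).prod (𝓡 3)) (𝓡 4) ∞ P := fun a => hP.ld a
  exact h1.isLocalHomeomorph.isOpenMap U hU

theorem main (M N : Type) [TopologicalSpace M] [CompactSpace M] [T2Space M]
    [ChartedSpace (E 4) M] [IsManifold (𝓡 4) ∞ M] [TopologicalSpace N] [CompactSpace N] [T2Space N]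
    [ChartedSpace (E 4) N] [IsManifold (𝓡 4) ∞ N] (ρ : Equiv.Perm (Sp 3)) (P : ℝ × Sp 3 → N)
    (hP : IsTorus ρ P) (f : M → N) (B : Set N) (hf : Cls 3 f B) (hB : IsClosed B)
    (hBn : NullC 4 B) (T : Set ℝ) (hT : volume T ≠ 0)
    (hrk : ∀ x, f x ∉ B → (rk 4 f x = 1 ∨ rk 4 f x = 2) → ∀ t ∈ T, ∀ u, f x ≠ P (t, u)) :
    ∃ G : M ≃ₜ N, ∃ x₀ : M, ∀ x, x ≠ x₀ → LD 4 G x := by
  have : SecondCountableTopology M := ChartedSpace.secondCountable_of_sigmaCompact (E 4) M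
  have hclm : IsClosedMap f := Pool.Agent.U898.CM.Apx.isClosedMap_of 3 hf.cont hf.proper
  -- good points
  have hgood : ∀ x, f x ∉ B → x ∉ KH.Bad 4 f := by
    intro x hx hcon
    apply hcon
    have h1 : ∀ᶠ y in 𝓝 x, f y ∉ B :=
      hf.cont.continuousAt.eventually (hB.isOpen_compl.mem_nhds hx)
    filter_upwards [h1] with y hy
    exact (hf.good y hy).1
  -- the closed set over which nothing is known
  have hZ : IsClosed {x | x ∈ KH.Bad 4 f ∨ rk 4 f x < 3} := RF.Rkc.main 3 M N f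
  -- the null set
  have hBh : NullH 4 B := KH.Null.main 4 N B hBn
  have hN : NullH 4 (B ∪ f '' {x | x ∉ KH.Bad 4 f ∧ rk 4 f x = 0}) := by
    intro h hi hld
    rw [preimage_union]
    exact measure_union_null (hBh h hi hld)
      (CQ.Rkm.main CQ.Sard0.main 4 M N f hf.cont h hi hld)
  -- a good fibre
  have hex : ∃ t₀ ∈ T, ∀ u, P (t₀, u) ∉ B ∪ f '' {x | x ∉ KH.Bad 4 f ∧ rk 4 f x = 0} := by
    by_contra hcon
    push Not at hcon
    apply hT
    refine measure_mono_null ?_ (RF.Tnull.main N ρ P hP _ hN)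
    intro t ht
    exact hcon t ht
  obtain ⟨t₀, ht₀, hu⟩ := hex
  have hmiss : t₀ ∈ {t : ℝ | ∀ u, P (t, u) ∉ B ∪ f '' {x | x ∈ KH.Bad 4 f ∨ rk 4 f x < 3}} := by
    rintro u (hb | ⟨x, hx, hxu⟩)
    · exact hu u (Or.inl hb)
    · by_cases hxB : f x ∈ B
      · exact hu u (Or.inl (hxu ▸ hxB))
      · have hb : x ∉ KH.Bad 4 f := hgood x hxB
        have h3 : rk 4 f x < 3 := hx.resolve_left hb
        by_cases h0 : rk 4 f x = 0
        · exact hu u (Or.inr ⟨x, ⟨hb, h0⟩, hxu⟩)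
        · exact hrk x hxB (by omega) t₀ ht₀ u hxu
  have hcl : IsClosed (B ∪ f '' {x | x ∈ KH.Bad 4 f ∨ rk 4 f x < 3}) := hB.union (hclm _ hZ)
  obtain ⟨δ, hδ, hball⟩ := Metric.isOpen_iff.1 (RF.Finr.open_miss hP hcl) t₀ hmiss
  obtain ⟨ε, hε, hε2, hεδ⟩ : ∃ ε : ℝ, 0 < ε ∧ ε < 1 / 2 ∧ 2 * ε < δ :=
    ⟨min (δ / 4) (1 / 4), by positivity,
      lt_of_le_of_lt (min_le_right _ _) (by norm_num),
      lt_of_le_of_lt (mul_le_mul_of_nonneg_left (min_le_left _ _) (by norm_num)) (by linarith)⟩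
  set K : Set N := P '' (Icc (t₀ - ε) (t₀ + ε) ×ˢ univ) with hKdef
  have hKc : IsCompact K := (isCompact_Icc.prod isCompact_univ).image (RF.Finr.cont hP)
  set K₂ : Set N := P '' (Icc (t₀ - 2 * ε) (t₀ + 2 * ε) ×ˢ univ) with hK₂def
  have hK₂c : IsCompact K₂ := (isCompact_Icc.prod isCompact_univ).image (RF.Finr.cont hP)
  set K₁ : Set N := P '' (Ioo (t₀ - 2 * ε) (t₀ + 2 * ε) ×ˢ univ) with hK₁def
  have hK₁o : IsOpen K₁ := open_image hP (isOpen_Ioo.prod isOpen_univ)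
  have hK01 : K ⊆ K₁ := image_mono (prod_mono
    (fun t ht => ⟨by linarith [ht.1], by linarith [ht.2]⟩) le_rfl)
  have hK12 : K₁ ⊆ K₂ := image_mono (prod_mono Ioo_subset_Icc_self le_rfl)
  have hdis₂ : Disjoint (B ∪ f '' {x | x ∈ KH.Bad 4 f ∨ rk 4 f x < 3}) K₂ := by
    rw [Set.disjoint_left]
    rintro y hy ⟨⟨t, u⟩, ⟨ht, -⟩, rfl⟩
    refine hball ?_ u hy
    rw [Metric.mem_ball, Real.dist_eq, abs_lt]
    have ht1 : t₀ - 2 * ε ≤ t := ht.1
    have ht2 : t ≤ t₀ + 2 * ε := ht.2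
    constructor <;> linarith
  -- the smooth homeomorphism
  obtain ⟨g, hgs, -, hgf⟩ := Pool.Agent.U898.CM.Apx.approx (m := 3) hf hB.isCompact hBn univ
    isOpen_univ (fun x => mem_univ _) K₂ᶜ hK₂c.isClosed.isOpen_compl
    (fun y hy hy2 => Set.disjoint_left.1 hdis₂ (Or.inl hy) hy2)
  have hgf' : ∀ x, f x ∈ K₂ → g x = f x := fun x hx => hgf x (fun h => h hx)
  have hback : ∀ x, g x ∈ K₂ → f x = g x := by
    intro x hx
    obtain ⟨x', hx'⟩ := hf.surj (g x)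
    have h1 : g x' = f x' := hgf' x' (by rw [hx']; exact hx)
    rw [hx'] at h1
    rw [← g.injective h1, hx', h1]
  have hev : ∀ x, g x ∈ K₁ → g =ᶠ[𝓝 x] f := by
    intro x hx
    have h1 : f x ∈ K₁ := by rw [hback x (hK12 hx)]; exact hx
    filter_upwards [hf.cont.continuousAt.eventually (hK₁o.mem_nhds h1)] with y hy
    exact hgf' y (hK12 hy)
  have hgB : KH.Bad 4 g = ∅ := by
    rw [eq_empty_iff_forall_notMem]
    intro x hx
    exact hx (Eventually.of_forall fun y => hgs y)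
  have hB₂ : NullH 4 (g '' KH.Bad 4 g) := by
    rw [hgB, image_empty]
    intro h hi hld
    rw [preimage_empty]
    exact measure_empty
  have hZ₂ : IsClosed {x | x ∈ KH.Bad 4 g ∨ rk 4 g x < 3} := RF.Rkc.main 3 M N g
  have hdis : Disjoint (g '' {x | x ∈ KH.Bad 4 g ∨ rk 4 g x < 3}) K := by
    rw [Set.disjoint_left]
    rintro _ ⟨x, hx, rfl⟩ hK
    have h1 := hev x (hK01 hK)
    have h2 : f x = g x := hback x (hK12 (hK01 hK))
    refine Set.disjoint_left.1 hdis₂ (Or.inr ⟨x, ?_, h2⟩) (hK12 (hK01 hK))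
    rcases hx with hx | hx
    · exact Or.inl (bad_congr h1 hx)
    · right
      rw [← rk_congr h1]; exact hx
  obtain ⟨f₁, hf₁n, hf₁l⟩ := RF.Ldk.main 3 M N g {x | x ∈ KH.Bad 4 g ∨ rk 4 g x < 3}
    K hB₂ hZ₂ (fun x hx => Or.inl hx) (fun x hx => not_lt.1 fun h => hx (Or.inr h)) hKc.isClosed
    hdis
  obtain ⟨l, c, hl, hlld, hlK, hc, hcld, hcr⟩ := RF.Tor.main N ρ P hP t₀ ε hε hε2
  obtain ⟨f₂, hf₂n, hf₂l⟩ := KH.one 3 M N f₁ l K (by norm_num) hf₁n hl hlld hlK hf₁l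
  obtain ⟨c', hc', hc'ld, hc'r⟩ := KH.Cell.main 4 M N f₂ c hf₂n hc hcld
  have : Nonempty (Sp 3) := (NormedSpace.sphere_nonempty.2 zero_le_one).to_subtype
  refine KH.asm 4 M N (f₂ ⁻¹' (K ∪ l '' {z | vp 1 3 z = 0 ∧ ‖up 1 3 z‖ ≤ 1})) _ c' c f₂
        (by norm_num) ?_ hc' hc'ld ?_ hc hcld
        hcr (fun x hx => hf₂l x hx) f₂.injective.injOn
        (image_preimage_eq _ f₂.surjective)
  · obtain ⟨u⟩ := (inferInstance : Nonempty (Sp 3))
    obtain ⟨x, hx⟩ := f₂.surjective (P (t₀, u))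
    refine ⟨x, Or.inl ?_⟩
    rw [hx]
    exact ⟨(t₀, u), ⟨⟨by linarith, by linarith⟩, mem_univ _⟩, rfl⟩
  · rw [hc'r, hcr, preimage_compl]

end Pool.Agent.U898.SB
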